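import Pool.Agent.P8H70.TU.Stm
import Pool.Agent.H506R3.LW.KER

/-! # Project TU (helper70), package J1: Jackson's theorem with explicit structure -/

set_option autoImplicit false

open Complex MeasureTheory

namespace Pool.Agent.P8H75.TU

open Pool.Agent.P8H70.TU

/-- kernel data on the circle -/
structure KD (ρ : ℝ → ℝ) (s : ℕ) (b : ℤ → ℂ) (C : ℝ) : Prop where
  cont : Continuous ρ
  per : ∀ t, ρ (t + 2 * Real.pi) = ρ t
  nonneg : ∀ t, 0 ≤ ρ t
  eq : ∀ t, (ρ t : ℂ) = ∑ k ∈ Finset.Icc (-(2 : ℤ) ^ s) (2 ^ s),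
    b k * cexp (-(I * ((k * t : ℝ) : ℂ)))
  int : ∫ t in (0 : ℝ)..(2 * Real.pi), ρ t = 2 * Real.pi
  mom : ∫ t in (0 : ℝ)..(2 * Real.pi), ρ t * H506W.dd t ≤ 2 * Real.pi * (C / 2 ^ s)

lemma ival_T1 (f : ℝ → ℝ) : ∫ t, f t ∂H506W.T1 =
    (2 * Real.pi)⁻¹ * ∫ t in (0 : ℝ)..(2 * Real.pi), f t := by
  rw [H506W.KER_T1, intervalIntegral.integral_of_le (by positivity),
    integral_Ioc_eq_integral_Ioo, integral_Ico_eq_integral_Ioo]

lemma exp_per (k : ℤ) (t : ℝ) : cexp (-(I * ((k * (t + 2 * Real.pi) : ℝ) : ℂ))) =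
    cexp (-(I * ((k * t : ℝ) : ℂ))) := by
  have h : -(I * ((k * (t + 2 * Real.pi) : ℝ) : ℂ)) =
      -(I * ((k * t : ℝ) : ℂ)) + ((-k : ℤ) : ℂ) * (2 * Real.pi * I) := by
    push_cast
    ring
  rw [h, Complex.exp_add, Complex.exp_int_mul_two_pi_mul_I, mul_one]

lemma kd (K : H506W.Ker 1) (s : ℕ) : KD (K.rho s) s (K.b s) K.C := by
  refine ⟨?_, ?_, K.nonneg s, K.eq s, ?_, ?_⟩
  · have h : K.rho s = fun t => (∑ k ∈ Finset.Icc (-(2 : ℤ) ^ s) (2 ^ s),
        K.b s k * cexp (-(I * ((k * t : ℝ) : ℂ)))).re := by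
      funext t
      rw [← K.eq s t, ofReal_re]
    rw [h]
    fun_prop
  · intro t
    have h : ((K.rho s (t + 2 * Real.pi) : ℝ) : ℂ) = ((K.rho s t : ℝ) : ℂ) := by
      rw [K.eq, K.eq]
      exact Finset.sum_congr rfl fun k _ => by rw [exp_per]
    exact_mod_cast h
  · have h := K.int s
    rw [ival_T1] at h
    have hp : (2 * Real.pi) ≠ 0 := by positivity
    field_simp at h
    linarith
  · have h := K.mom s
    rw [ival_T1] at h
    have hp : (0 : ℝ) < 2 * Real.pi := by positivity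
    rw [inv_mul_le_iff₀ hp] at h
    have e1 : (fun t => K.rho s t * H506W.dd t ^ (1 : ℝ)) = fun t => K.rho s t * H506W.dd t := by
      funext t
      rw [Real.rpow_one]
    have e2 : K.C * (2 : ℝ) ^ (-((1 : ℝ) * s)) = K.C / 2 ^ s := by
      rw [one_mul, Real.rpow_neg (by norm_num), Real.rpow_natCast, div_eq_mul_inv]
    rw [e1, e2] at h
    exact h

lemma per_int {E : Type} [NormedAddCommGroup E] [NormedSpace ℝ E] (Φ : ℝ → E)
    (h : ∀ t, Φ (t + 2 * Real.pi) = Φ t) (y : ℝ) :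
    ∫ u in (0 : ℝ)..(2 * Real.pi), Φ (y - u) = ∫ u in (0 : ℝ)..(2 * Real.pi), Φ u := by
  rw [intervalIntegral.integral_comp_sub_left (fun u => Φ u) y]
  have hp : Function.Periodic Φ (2 * Real.pi) := h
  have h1 := hp.intervalIntegral_add_eq (y - 2 * Real.pi) 0
  rw [zero_add, sub_add_cancel] at h1
  rw [sub_zero]
  exact h1

variable {ρ : ℝ → ℝ} {s : ℕ} {b : ℤ → ℂ} {C : ℝ}

/-- convolution with the kernel -/
noncomputable def J (ρ : ℝ → ℝ) (f : ℝ → ℂ) (y : ℝ) : ℂ :=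
  ((2 * Real.pi)⁻¹ : ℝ) * ∫ u in (0 : ℝ)..(2 * Real.pi), f u * (ρ (y - u) : ℂ)

lemma int_rho (h : KD ρ s b C) (y : ℝ) : ∫ u in (0 : ℝ)..(2 * Real.pi), ρ (y - u) = 2 * Real.pi := by
  rw [per_int ρ h.per y, h.int]

lemma J_bound (h : KD ρ s b C) (f : ℝ → ℂ) (B : ℝ) (hB : ∀ x, ‖f x‖ ≤ B) (y : ℝ) :
    ‖J ρ f y‖ ≤ B := by
  have hp : (0 : ℝ) < 2 * Real.pi := by positivity
  have hc : Continuous fun u => B * ρ (y - u) := by
    have := h.cont
    fun_prop
  have h1 : ‖∫ u in (0 : ℝ)..(2 * Real.pi), f u * (ρ (y - u) : ℂ)‖ ≤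
      ∫ u in (0 : ℝ)..(2 * Real.pi), B * ρ (y - u) := by
    apply intervalIntegral.norm_integral_le_of_norm_le hp.le
    · filter_upwards with u _
      rw [norm_mul, Complex.norm_real, Real.norm_of_nonneg (h.nonneg _)]
      exact mul_le_mul_of_nonneg_right (hB u) (h.nonneg _)
    · exact hc.intervalIntegrable _ _
  rw [intervalIntegral.integral_const_mul, int_rho h] at h1
  unfold J
  rw [norm_mul, Complex.norm_real, Real.norm_of_nonneg (by positivity), inv_mul_le_iff₀ hp]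
  linarith

lemma lip_cont (f : ℝ → ℂ) (L : ℝ) (hL : ∀ x y, ‖f x - f y‖ ≤ L * |x - y|) :
    0 ≤ L ∧ Continuous f := by
  have h0 : 0 ≤ L := by
    have h1 := (norm_nonneg _).trans (hL 1 0)
    simpa using h1
  refine ⟨h0, ?_⟩
  have h1 : LipschitzWith (Real.toNNReal L) f := by
    apply LipschitzWith.of_dist_le_mul
    intro x y
    rw [dist_eq_norm, Real.dist_eq, Real.coe_toNNReal L h0]
    exact hL x y
  exact h1.continuous

lemma dd_cont : Continuous H506W.dd := by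
  unfold H506W.dd
  fun_prop

lemma J_close (h : KD ρ s b C) (f : ℝ → ℂ) (L : ℝ) (hL : ∀ x y, ‖f x - f y‖ ≤ L * |x - y|)
    (hper : ∀ x, f (x + 2 * Real.pi) = f x) (y : ℝ) : ‖f y - J ρ f y‖ ≤ C * L / 2 ^ s := by
  have hp : (0 : ℝ) < 2 * Real.pi := by positivity
  obtain ⟨h0, hf⟩ := lip_cont f L hL
  have hρ := h.cont
  have hint : ∫ u in (0 : ℝ)..(2 * Real.pi), (ρ (y - u) : ℂ) = ((2 * Real.pi : ℝ) : ℂ) := by
    rw [intervalIntegral.integral_ofReal, int_rho h]
  have e1 : f y - J ρ f y = ((2 * Real.pi)⁻¹ : ℝ) *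
      ∫ u in (0 : ℝ)..(2 * Real.pi), (f y - f u) * (ρ (y - u) : ℂ) := by
    have e2 : ∫ u in (0 : ℝ)..(2 * Real.pi), (f y - f u) * (ρ (y - u) : ℂ) =
        f y * ((2 * Real.pi : ℝ) : ℂ) - ∫ u in (0 : ℝ)..(2 * Real.pi), f u * (ρ (y - u) : ℂ) := by
      rw [← hint, ← intervalIntegral.integral_const_mul, ← intervalIntegral.integral_sub]
      · congr 1
        funext u
        ring
      · apply Continuous.intervalIntegrable
        fun_prop
      · apply Continuous.intervalIntegrable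
        fun_prop
    rw [e2]
    unfold J
    have h3 : (((2 * Real.pi)⁻¹ : ℝ) : ℂ) * ((2 * Real.pi : ℝ) : ℂ) = 1 := by
      rw [← Complex.ofReal_mul, inv_mul_cancel₀ hp.ne', Complex.ofReal_one]
    linear_combination (-f y) * h3
  have e3 : ‖∫ u in (0 : ℝ)..(2 * Real.pi), (f y - f u) * (ρ (y - u) : ℂ)‖ ≤
      ∫ u in (0 : ℝ)..(2 * Real.pi), ‖f y - f u‖ * ρ (y - u) := by
    apply intervalIntegral.norm_integral_le_of_norm_le hp.le
    · filter_upwards with u _
      rw [norm_mul, Complex.norm_real, Real.norm_of_nonneg (h.nonneg _)]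
    · apply Continuous.intervalIntegrable
      fun_prop
  have e4 : ∫ u in (0 : ℝ)..(2 * Real.pi), ‖f y - f u‖ * ρ (y - u) =
      ∫ v in (0 : ℝ)..(2 * Real.pi), ‖f y - f (y - v)‖ * ρ v := by
    rw [← per_int (fun v => ‖f y - f (y - v)‖ * ρ v) ?_ y]
    · congr 1
      funext u
      rw [sub_sub_cancel]
    · intro t
      have h5 : f (y - (t + 2 * Real.pi)) = f (y - t) := by
        rw [← hper (y - (t + 2 * Real.pi))]
        congr 1
        ring
      simp only [h5, h.per]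
  have e5 : ∫ v in (0 : ℝ)..(2 * Real.pi), ‖f y - f (y - v)‖ * ρ v ≤
      ∫ v in (0 : ℝ)..(2 * Real.pi), L * (ρ v * H506W.dd v) := by
    apply intervalIntegral.integral_mono_on hp.le
    · apply Continuous.intervalIntegrable
      fun_prop
    · have := dd_cont
      apply Continuous.intervalIntegrable
      fun_prop
    · intro v hv
      have h6 : ‖f y - f (y - v)‖ ≤ L * H506W.dd v := by
        unfold H506W.dd
        rcases min_choice v (2 * Real.pi - v) with h7 | h7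
        · rw [h7]
          refine (hL _ _).trans (le_of_eq ?_)
          rw [sub_sub_cancel, abs_of_nonneg hv.1]
        · rw [h7, ← hper (y - v)]
          refine (hL _ _).trans (le_of_eq ?_)
          have h8 : y - (y - v + 2 * Real.pi) = -(2 * Real.pi - v) := by ring
          rw [h8, abs_neg, abs_of_nonneg (by linarith [hv.2])]
      calc _ ≤ L * H506W.dd v * ρ v := mul_le_mul_of_nonneg_right h6 (h.nonneg _)
        _ = _ := by ring
  rw [intervalIntegral.integral_const_mul] at e5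
  have e6 := mul_le_mul_of_nonneg_left h.mom h0
  rw [e1, norm_mul, Complex.norm_real, Real.norm_of_nonneg (by positivity), inv_mul_le_iff₀ hp]
  rw [e4] at e3
  refine e3.trans (e5.trans (e6.trans (le_of_eq ?_)))
  ring

lemma fh_eq (f : ℝ → ℂ) (hf : Continuous f) (hper : ∀ x, f (x + 2 * Real.pi) = f x)
    (heven : ∀ x, f (-x) = f x) (k : ℤ) :
    fh f k = ((2 * Real.pi)⁻¹ : ℝ) *
      ∫ u in (0 : ℝ)..(2 * Real.pi), f u * cexp (I * ((k * u : ℝ) : ℂ)) := by
  have h1 : ∫ u in (0 : ℝ)..(2 * Real.pi), f u * cexp (I * ((k * u : ℝ) : ℂ)) =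
      ∫ u in (0 : ℝ)..(2 * Real.pi), f u * cexp (-(I * ((k * u : ℝ) : ℂ))) := by
    have h2 := per_int (fun u => f u * cexp (-(I * ((k * u : ℝ) : ℂ)))) (fun t => by
      rw [exp_per, hper]) 0
    rw [← h2]
    congr 1
    funext u
    rw [zero_sub, heven]
    congr 2
    push_cast
    ring
  have h3 : ∫ u in (0 : ℝ)..(2 * Real.pi), f u * (Real.cos (k * u) : ℂ) =
      ((∫ u in (0 : ℝ)..(2 * Real.pi), f u * cexp (I * ((k * u : ℝ) : ℂ))) +
        (∫ u in (0 : ℝ)..(2 * Real.pi), f u * cexp (-(I * ((k * u : ℝ) : ℂ))))) / 2 := by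
    rw [← intervalIntegral.integral_add, ← intervalIntegral.integral_div]
    · congr 1
      funext u
      rw [Complex.ofReal_cos, Complex.cos]
      have h4 : (((k : ℝ) * u : ℝ) : ℂ) * I = I * ((k * u : ℝ) : ℂ) := mul_comm _ _
      rw [neg_mul, h4]
      ring
    · apply Continuous.intervalIntegrable
      fun_prop
    · apply Continuous.intervalIntegrable
      fun_prop
  unfold fh
  rw [h3, ← h1]
  ring

lemma J_eq (h : KD ρ s b C) (f : ℝ → ℂ) (hf : Continuous f)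
    (hper : ∀ x, f (x + 2 * Real.pi) = f x) (heven : ∀ x, f (-x) = f x) (y : ℝ) :
    J ρ f y = ∑ k ∈ Finset.Icc (-(2 : ℤ) ^ s) (2 ^ s),
      b k * fh f k * cexp (-(I * ((k * y : ℝ) : ℂ))) := by
  unfold J
  have h1 : ∫ u in (0 : ℝ)..(2 * Real.pi), f u * (ρ (y - u) : ℂ) =
      ∑ k ∈ Finset.Icc (-(2 : ℤ) ^ s) (2 ^ s), b k * cexp (-(I * ((k * y : ℝ) : ℂ))) *
        ∫ u in (0 : ℝ)..(2 * Real.pi), f u * cexp (I * ((k * u : ℝ) : ℂ)) := by
    have h2 : ∀ u : ℝ, f u * (ρ (y - u) : ℂ) = ∑ k ∈ Finset.Icc (-(2 : ℤ) ^ s) (2 ^ s),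
        b k * cexp (-(I * ((k * y : ℝ) : ℂ))) * (f u * cexp (I * ((k * u : ℝ) : ℂ))) := by
      intro u
      rw [h.eq, Finset.mul_sum]
      refine Finset.sum_congr rfl fun k _ => ?_
      have h3 : cexp (-(I * ((k * (y - u) : ℝ) : ℂ))) =
          cexp (-(I * ((k * y : ℝ) : ℂ))) * cexp (I * ((k * u : ℝ) : ℂ)) := by
        rw [← Complex.exp_add]
        congr 1
        push_cast
        ring
      rw [h3]
      ring
    rw [intervalIntegral.integral_congr fun u _ => h2 u, intervalIntegral.integral_finsetSum]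
    · refine Finset.sum_congr rfl fun k _ => ?_
      rw [intervalIntegral.integral_const_mul]
    · intro k _
      apply Continuous.intervalIntegrable
      fun_prop
  rw [h1, Finset.mul_sum]
  refine Finset.sum_congr rfl fun k _ => ?_
  rw [fh_eq f hf hper heven k]
  ring

lemma G_eq (h : KD ρ s b C) (f : ℝ → ℂ) (hf : Continuous f)
    (hper : ∀ x, f (x + 2 * Real.pi) = f x) (heven : ∀ x, f (-x) = f x) (x : ℝ) :
    ∑ k ∈ Finset.Icc (-(2 : ℤ) ^ s) (2 ^ s), b k * fh f k * (Real.cos (k * x) : ℂ) =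
      (J ρ f x + J ρ f (-x)) / 2 := by
  rw [J_eq h f hf hper heven, J_eq h f hf hper heven, ← Finset.sum_add_distrib, Finset.sum_div]
  refine Finset.sum_congr rfl fun k _ => ?_
  rw [Complex.ofReal_cos, Complex.cos]
  have h4 : (((k : ℝ) * x : ℝ) : ℂ) * I = I * ((k * x : ℝ) : ℂ) := mul_comm _ _
  have h5 : -(I * ((k * (-x) : ℝ) : ℂ)) = I * ((k * x : ℝ) : ℂ) := by
    push_cast
    ring
  rw [neg_mul, h4, h5]
  ring

lemma b_norm (h : KD ρ s b C) (k : ℤ) (hk : k ∈ Finset.Icc (-(2 : ℤ) ^ s) (2 ^ s)) : ‖b k‖ ≤ 1 := by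
  have hp : (0 : ℝ) < 2 * Real.pi := by positivity
  have h1 : ∫ u in (0 : ℝ)..(2 * Real.pi), (ρ u : ℂ) * cexp (I * ((k * u : ℝ) : ℂ)) =
      b k * ((2 * Real.pi : ℝ) : ℂ) := by
    have h2 : ∀ u : ℝ, (ρ u : ℂ) * cexp (I * ((k * u : ℝ) : ℂ)) =
        ∑ j ∈ Finset.Icc (-(2 : ℤ) ^ s) (2 ^ s), b j * cexp ((((k - j : ℤ) * u : ℝ) : ℂ) * I) := by
      intro u
      rw [h.eq, Finset.sum_mul]
      refine Finset.sum_congr rfl fun j _ => ?_
      rw [mul_assoc, ← Complex.exp_add]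
      congr 2
      push_cast
      ring
    rw [intervalIntegral.integral_congr fun u _ => h2 u, intervalIntegral.integral_finsetSum]
    · rw [Finset.sum_eq_single k]
      · rw [intervalIntegral.integral_const_mul, Pool.Agent.P8H70.TR.int_exp, sub_self, if_pos rfl]
      · intro j _ hj
        rw [intervalIntegral.integral_const_mul, Pool.Agent.P8H70.TR.int_exp, if_neg (by omega),
          mul_zero]
      · intro h3
        exact absurd hk h3
    · intro j _
      apply Continuous.intervalIntegrable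
      fun_prop
  have h2 : ‖∫ u in (0 : ℝ)..(2 * Real.pi), (ρ u : ℂ) * cexp (I * ((k * u : ℝ) : ℂ))‖ ≤
      ∫ u in (0 : ℝ)..(2 * Real.pi), ρ u := by
    apply intervalIntegral.norm_integral_le_of_norm_le hp.le
    · filter_upwards with u _
      rw [norm_mul, Complex.norm_real, Real.norm_of_nonneg (h.nonneg _), mul_comm I,
        Complex.norm_exp_ofReal_mul_I, mul_one]
    · exact h.cont.intervalIntegrable _ _
  rw [h1, h.int, norm_mul, Complex.norm_real, Real.norm_of_nonneg hp.le] at h2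
  by_contra h3
  push Not at h3
  nlinarith

/-- **J1** -/
theorem j1 : S_J1 := by
  classical
  obtain ⟨K⟩ := H506W.KER_proof 1 one_pos
  refine ⟨K.C, K.C_pos, fun s => ?_⟩
  have h := kd K s
  refine ⟨fun k => if k ∈ Finset.Icc (-(2 : ℤ) ^ s) (2 ^ s) then K.b s k else 0, ?_, ?_, ?_⟩
  · intro k
    show ‖if k ∈ Finset.Icc (-(2 : ℤ) ^ s) (2 ^ s) then K.b s k else 0‖ ≤ 1
    split_ifs with hk
    · exact b_norm h k hk
    · simp
  · intro f B hf hper heven hB x
    have e : ∑ k ∈ Finset.Icc (-(2 : ℤ) ^ s) (2 ^ s),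
        (if k ∈ Finset.Icc (-(2 : ℤ) ^ s) (2 ^ s) then K.b s k else 0) * fh f k *
          (Real.cos (k * x) : ℂ) = (J (K.rho s) f x + J (K.rho s) f (-x)) / 2 := by
      rw [← G_eq h f hf hper heven x]
      exact Finset.sum_congr rfl fun k hk => by rw [if_pos hk]
    rw [e, norm_div]
    have h1 := J_bound h f B hB x
    have h2 := J_bound h f B hB (-x)
    have h3 := norm_add_le (J (K.rho s) f x) (J (K.rho s) f (-x))
    have h4 : ‖(2 : ℂ)‖ = 2 := by norm_num
    rw [h4, div_le_iff₀ (by norm_num)]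
    linarith
  · intro f L hL hper heven x
    obtain ⟨h0, hf⟩ := lip_cont f L hL
    have e : ∑ k ∈ Finset.Icc (-(2 : ℤ) ^ s) (2 ^ s),
        (if k ∈ Finset.Icc (-(2 : ℤ) ^ s) (2 ^ s) then K.b s k else 0) * fh f k *
          (Real.cos (k * x) : ℂ) = (J (K.rho s) f x + J (K.rho s) f (-x)) / 2 := by
      rw [← G_eq h f hf hper heven x]
      exact Finset.sum_congr rfl fun k hk => by rw [if_pos hk]
    have h1 := J_close h f L hL hper x
    have h2 := J_close h f L hL hper (-x)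
    rw [heven] at h2
    have e2 : f x - (J (K.rho s) f x + J (K.rho s) f (-x)) / 2 =
        ((f x - J (K.rho s) f x) + (f x - J (K.rho s) f (-x))) / 2 := by ring
    have h3 := norm_add_le (f x - J (K.rho s) f x) (f x - J (K.rho s) f (-x))
    have h4 : ‖(2 : ℂ)‖ = 2 := by norm_num
    rw [e, e2, norm_div, h4, div_le_iff₀ (by norm_num)]
    linarith

end Pool.Agent.P8H75.TU
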